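import Pool.Agent.H69.Car.Ext

set_option autoImplicit false
open Set Metric Filter Topology MeasureTheory Complex
open scoped Real

/-! The Riemann map of the disc onto a Jordan domain extends to a homeomorphism of the closures
(Caratheodory). -/

namespace Pool.Agent.H69.Car

open Pool.Agent.H81.Q1 (IsJordanDomain IsArcs)

/-- If a continuous function on the closed disc, holomorphic inside, has the value `p` on a
nonempty open piece of the unit circle, then its value at the centre is `p`. -/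
lemma const_of_arc {Φ : ℂ → ℂ} (hc : ContinuousOn Φ (closedBall 0 1))
    (hd : DifferentiableOn ℂ Φ (ball 0 1)) {p : ℂ} {α β : ℝ} (hαβ : α < β)
    (hp : ∀ θ ∈ Ioo α β, Φ (exp (θ * I)) = p) : Φ 0 = p := by
  obtain ⟨N, hN⟩ := exists_nat_gt (2 * π / (β - α))
  have hN0 : (0 : ℝ) < N := lt_of_le_of_lt (by have := Real.pi_pos; have : 0 < β - α := by linarith
                                               positivity) hN
  have hNb : 2 * π / N < β - α := by
    rw [div_lt_iff₀ hN0]
    rw [div_lt_iff₀ (by linarith)] at hN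
    linarith
  set F : ℂ → ℂ := fun z => ∏ k ∈ Finset.range N, (Φ (exp ((2 * π * k / N : ℝ) * I) * z) - p)
    with hF
  have hrot : ∀ (k : ℕ) (z : ℂ), ‖exp ((2 * π * k / N : ℝ) * I) * z‖ = ‖z‖ := by
    intro k z
    rw [norm_mul, norm_exp_ofReal_mul_I, one_mul]
  have hFd : DiffContOnCl ℂ F (ball 0 1) := by
    constructor
    · refine DifferentiableOn.fun_finsetProd fun k _ => ?_
      refine DifferentiableOn.sub_const ?_ p
      refine hd.comp (by fun_prop) ?_
      intro z hz
      rw [mem_ball_zero_iff, hrot]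
      exact mem_ball_zero_iff.1 hz
    · rw [closure_ball _ one_ne_zero]
      refine continuousOn_finsetProd _ fun k _ => ?_
      refine ContinuousOn.sub ?_ continuousOn_const
      refine hc.comp (by fun_prop) ?_
      intro z hz
      rw [mem_closedBall_zero_iff, hrot]
      exact mem_closedBall_zero_iff.1 hz
  have hF0 : ∀ z ∈ frontier (ball (0:ℂ) 1), F z = 0 := by
    intro z hz
    rw [frontier_ball _ one_ne_zero, mem_sphere_zero_iff_norm] at hz
    have hz' : z = exp (arg z * I) := by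
      have := norm_mul_exp_arg_mul_I z
      rw [hz, ofReal_one, one_mul] at this
      exact this.symm
    set j : ℤ := ⌊N * (α - arg z) / (2 * π)⌋ + 1 with hj
    have hpi := Real.two_pi_pos
    have hj1 : α < arg z + 2 * π * j / N := by
      have h1 := Int.lt_floor_add_one (N * (α - arg z) / (2 * π))
      rw [div_lt_iff₀ hpi] at h1
      have h2 : (N : ℝ) * (α - arg z) < 2 * π * j := by
        rw [hj]; push_cast; linarith
      have h3 : α - arg z < 2 * π * j / N := by
        rw [lt_div_iff₀ hN0]; linarith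
      linarith
    have hj2 : arg z + 2 * π * j / N < β := by
      have h1 := Int.floor_le (N * (α - arg z) / (2 * π))
      rw [le_div_iff₀ hpi] at h1
      have h2 : 2 * π * j ≤ (N : ℝ) * (α - arg z) + 2 * π := by
        rw [hj]; push_cast; linarith
      have h3 : 2 * π * j / N ≤ (α - arg z) + 2 * π / N := by
        rw [div_le_iff₀ hN0, add_mul, div_mul_cancel₀ _ hN0.ne']
        linarith
      linarith
    have hNz : (N : ℤ) ≠ 0 := by
      intro h
      have : (N : ℝ) = 0 := by exact_mod_cast h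
      linarith
    have hk0 : 0 ≤ j % (N : ℤ) := Int.emod_nonneg _ hNz
    have hk1 : j % (N : ℤ) < N := Int.emod_lt_of_pos _ (by omega)
    rw [hF]
    refine Finset.prod_eq_zero (i := (j % (N : ℤ)).toNat) ?_ ?_
    · rw [Finset.mem_range]; omega
    · have hk : (((j % (N : ℤ)).toNat : ℕ) : ℝ) = j - N * (j / (N : ℤ) : ℤ) := by
        have h1 : ((j % (N : ℤ)).toNat : ℤ) = j - N * (j / (N : ℤ)) := by
          rw [Int.toNat_of_nonneg hk0, Int.emod_def]
        exact_mod_cast h1
      have h2 : exp ((2 * π * (((j % (N : ℤ)).toNat : ℕ) : ℝ) / N : ℝ) * I) * z =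
          exp ((arg z + 2 * π * j / N : ℝ) * I) := by
        conv_lhs => rw [hz']
        rw [← exp_add, Complex.exp_eq_exp_iff_exists_int]
        refine ⟨-(j / (N : ℤ)), ?_⟩
        rw [hk]
        have hNc : (N : ℂ) ≠ 0 := by exact_mod_cast hN0.ne'
        push_cast
        field_simp
        ring
      rw [h2, hp _ ⟨hj1, hj2⟩, sub_self]
  have h1 := Complex.eqOn_closure_of_eqOn_frontier isBounded_ball hFd
    (diffContOnCl_const (c := (0 : ℂ))) (fun z hz => hF0 z hz)
  have h2 : F 0 = 0 := h1 (subset_closure (mem_ball_self one_pos))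
  rw [hF] at h2
  simp only [mul_zero] at h2
  rw [Finset.prod_const, pow_eq_zero_iff] at h2
  · linear_combination h2
  · rw [Finset.card_range]
    rintro rfl
    simp at hN0

/-- `Φ` is a homeomorphism of the closed disc onto the closure of `D`, holomorphic inside. -/
structure IsCar (D : Set ℂ) (Φ : ℂ → ℂ) : Prop where
  cont : ContinuousOn Φ (closedBall 0 1)
  diff : DifferentiableOn ℂ Φ (ball 0 1)
  inj : InjOn Φ (closedBall 0 1)
  image_ball : Φ '' ball 0 1 = D
  image_sphere : Φ '' sphere 0 1 = frontier D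

/-- **Caratheodory's theorem**: the Riemann map of a Jordan domain extends to a homeomorphism of
the closures. -/
theorem exists_car {D : Set ℂ} (hD : IsJordanDomain D) : ∃ Φ : ℂ → ℂ, IsCar D Φ := by
  obtain ⟨φ, f, hφ, hb, hf, hfφ⟩ := exists_riemann hD
  have hcl : closure (ball (0:ℂ) 1) = closedBall 0 1 := closure_ball _ one_ne_zero
  have hDo : IsOpen D := hD.1
  have hfr : frontier D = closure D \ D := hDo.frontier_eq
  -- limits exist
  have hlim : ∀ x ∈ closedBall (0:ℂ) 1, ∃ y, Tendsto φ (𝓝[ball 0 1] x) (𝓝 y) := by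
    intro x hx
    have : (𝓝[ball (0:ℂ) 1] x).NeBot := mem_closure_iff_nhdsWithin_neBot.1 (hcl ▸ hx)
    rw [← cauchy_map_iff_exists_tendsto, Metric.cauchy_iff]
    refine ⟨inferInstance, fun ε hε => ?_⟩
    obtain ⟨r, hr, h1⟩ := unif hD hφ hb hf hfφ hε
    refine ⟨φ '' (ball 0 1 ∩ ball x (r / 2)), image_mem_map ?_, ?_⟩
    · exact inter_mem_nhdsWithin _ (ball_mem_nhds x (by positivity))
    · rintro _ ⟨z, hz, rfl⟩ _ ⟨w, hw, rfl⟩
      refine h1 z hz.1 w hw.1 ?_
      have h2 := mem_ball.1 hz.2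
      have h3 := mem_ball.1 hw.2
      have := dist_triangle_right z w x
      linarith
  set Φ := extendFrom (ball (0:ℂ) 1) φ with hΦ
  have hΦc : ContinuousOn Φ (closedBall 0 1) := continuousOn_extendFrom hcl.symm.subset hlim
  have hΦe : ∀ z ∈ ball (0:ℂ) 1, Φ z = φ z := extendFrom_extends hφ.continuousOn
  have hΦt : ∀ x ∈ closedBall (0:ℂ) 1, Tendsto φ (𝓝[ball 0 1] x) (𝓝 (Φ x)) :=
    fun x hx => tendsto_extendFrom (hlim x hx)
  have hfD : ∀ u ∈ D, f u ∈ ball (0:ℂ) 1 ∧ φ (f u) = u := by
    intro u hu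
    obtain ⟨v, hv, rfl⟩ := hb.surjOn hu
    rw [hfφ v hv]
    exact ⟨hv, rfl⟩
  have himb : Φ '' ball 0 1 = D := by
    rw [← hb.image_eq]
    exact image_congr hΦe
  -- the circle goes to the frontier
  have hsph : ∀ ζ ∈ sphere (0:ℂ) 1, Φ ζ ∈ frontier D := by
    intro ζ hζ
    have hζc : ζ ∈ closedBall (0:ℂ) 1 := sphere_subset_closedBall hζ
    have : (𝓝[ball (0:ℂ) 1] ζ).NeBot := mem_closure_iff_nhdsWithin_neBot.1 (hcl ▸ hζc)
    rw [hfr]
    refine ⟨mem_closure_of_tendsto (hΦt ζ hζc) ?_, ?_⟩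
    · filter_upwards [self_mem_nhdsWithin] with z hz
      exact hb.mapsTo hz
    · intro hp
      have h1 : Tendsto φ (𝓝[ball 0 1] ζ) (𝓝[D] (Φ ζ)) := by
        rw [tendsto_nhdsWithin_iff]
        refine ⟨hΦt ζ hζc, ?_⟩
        filter_upwards [self_mem_nhdsWithin] with z hz
        exact hb.mapsTo hz
      have h2 : Tendsto (fun z => f (φ z)) (𝓝[ball 0 1] ζ) (𝓝 (f (Φ ζ))) :=
        Tendsto.comp (hf (Φ ζ) hp) h1
      have h3 : Tendsto (fun z => f (φ z)) (𝓝[ball 0 1] ζ) (𝓝 ζ) := by
        refine Tendsto.congr' ?_ (tendsto_id.mono_left nhdsWithin_le_nhds)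
        filter_upwards [self_mem_nhdsWithin] with z hz
        exact (hfφ z hz).symm
      have h4 := tendsto_nhds_unique h2 h3
      have h5 := (hfD _ hp).1
      rw [h4, mem_ball_zero_iff, mem_sphere_zero_iff_norm.1 hζ] at h5
      exact lt_irrefl _ h5
  have hΦ0 : Φ 0 ∈ D := by
    rw [← himb]
    exact mem_image_of_mem _ (mem_ball_self one_pos)
  have hdisj : ∀ p ∈ frontier D, p ∉ D := fun p hp => by
    rw [hfr] at hp
    exact hp.2
  have hdiff : DifferentiableOn ℂ Φ (ball 0 1) := hφ.congr hΦe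
  -- injectivity on the circle
  have hinj : ∀ ζ1 ∈ sphere (0:ℂ) 1, ∀ ζ2 ∈ sphere (0:ℂ) 1, Φ ζ1 = Φ ζ2 → ζ1 = ζ2 := by
    intro ζ1 h1 ζ2 h2 h12
    by_contra hne
    set p := Φ ζ1 with hp
    have hpf : p ∈ frontier D := hsph ζ1 h1
    have hpD : p ∉ D := hdisj p hpf
    set u := ζ2 - ζ1 with hu
    have hu0 : u ≠ 0 := sub_ne_zero.2 (Ne.symm hne)
    have hun : 0 < ‖u‖ := norm_pos_iff.2 hu0
    set L : ℂ → ℝ := fun z => (z * (starRingEnd ℂ) u).re with hL
    have hLc : Continuous L := by
      rw [hL]; fun_prop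
    have hL12 : L ζ1 < L ζ2 := by
      have h3 : L ζ2 - L ζ1 = ‖u‖ ^ 2 := by
        rw [hL]
        simp only
        rw [← sub_re, ← sub_mul, ← hu, mul_conj, ofReal_re, Complex.normSq_eq_norm_sq]
      have : 0 < ‖u‖ ^ 2 := by positivity
      linarith
    have hA : ∀ s ∈ Ioo (L ζ1) (L ζ2), ∃ q ∈ sphere (0:ℂ) 1, L q = s ∧ Φ q = p := by
      intro s hs
      have hex : ∀ ε > 0, ∃ q ∈ ball (0:ℂ) 1, L q = s ∧ dist (Φ q) p < ε := by
        intro ε hε
        obtain ⟨η, hη, hj⟩ := Pool.Agent.H14.Jordan.local_joined hD p hε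
        have hz : ∃ z ∈ ball (0:ℂ) 1, L z < s ∧ dist (φ z) p < η := by
          have hζc : ζ1 ∈ closedBall (0:ℂ) 1 := sphere_subset_closedBall h1
          have : (𝓝[ball (0:ℂ) 1] ζ1).NeBot := mem_closure_iff_nhdsWithin_neBot.1 (hcl ▸ hζc)
          have e1 : ∀ᶠ z in 𝓝[ball (0:ℂ) 1] ζ1, dist (φ z) p < η :=
            (hΦt ζ1 hζc).eventually (ball_mem_nhds p hη)
          have e2 : ∀ᶠ z in 𝓝[ball (0:ℂ) 1] ζ1, L z < s :=
            (hLc.continuousAt.eventually (gt_mem_nhds hs.1)).filter_mono nhdsWithin_le_nhds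
          obtain ⟨z, hz⟩ := (e1.and (e2.and self_mem_nhdsWithin)).exists
          exact ⟨z, hz.2.2, hz.2.1, hz.1⟩
        have hw : ∃ w ∈ ball (0:ℂ) 1, s < L w ∧ dist (φ w) p < η := by
          have hζc : ζ2 ∈ closedBall (0:ℂ) 1 := sphere_subset_closedBall h2
          have : (𝓝[ball (0:ℂ) 1] ζ2).NeBot := mem_closure_iff_nhdsWithin_neBot.1 (hcl ▸ hζc)
          have e0 := hΦt ζ2 hζc
          rw [← h12] at e0
          have e1 : ∀ᶠ z in 𝓝[ball (0:ℂ) 1] ζ2, dist (φ z) p < η :=
            e0.eventually (ball_mem_nhds p hη)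
          have e2 : ∀ᶠ z in 𝓝[ball (0:ℂ) 1] ζ2, s < L z :=
            (hLc.continuousAt.eventually (lt_mem_nhds hs.2)).filter_mono nhdsWithin_le_nhds
          obtain ⟨z, hz⟩ := (e1.and (e2.and self_mem_nhdsWithin)).exists
          exact ⟨z, hz.2.2, hz.2.1, hz.1⟩
        obtain ⟨z, hz, hzs, hzp⟩ := hz
        obtain ⟨w, hw, hws, hwp⟩ := hw
        obtain ⟨γ, hγ⟩ := hj (φ z) (hb.mapsTo hz) (φ w) (hb.mapsTo hw) hzp hwp
        have hcont : Continuous (fun t => L (f (γ t))) :=
          hLc.comp (hf.comp_continuous γ.continuous fun t => (hγ t).1)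
        have h4 := intermediate_value_univ (0 : unitInterval) 1 hcont
        have h5 : s ∈ range (fun t => L (f (γ t))) := by
          apply h4
          simp only [γ.source, γ.target, hfφ z hz, hfφ w hw]
          exact ⟨hzs.le, hws.le⟩
        obtain ⟨t, ht⟩ := h5
        have h6 := hfD (γ t) (hγ t).1
        refine ⟨f (γ t), h6.1, ht, ?_⟩
        rw [hΦe _ h6.1, h6.2]
        exact (hγ t).2
      -- minimum over the chord
      have hcomp : IsCompact (closedBall (0:ℂ) 1 ∩ L ⁻¹' {s}) :=
        (isCompact_closedBall 0 1).inter_right (isClosed_singleton.preimage hLc)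
      have hnon : (closedBall (0:ℂ) 1 ∩ L ⁻¹' {s}).Nonempty := by
        obtain ⟨q, hq, hqs, -⟩ := hex 1 one_pos
        exact ⟨q, ball_subset_closedBall hq, hqs⟩
      obtain ⟨q, hq, hmin⟩ := hcomp.exists_isMinOn hnon
        (f := fun z => dist (Φ z) p)
        ((continuous_id.dist (continuous_const (y := p))).comp_continuousOn
          (hΦc.mono inter_subset_left))
      have hq0 : dist (Φ q) p = 0 := by
        by_contra h
        have hpos : 0 < dist (Φ q) p := lt_of_le_of_ne dist_nonneg (Ne.symm h)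
        obtain ⟨q', hq', hqs', hd⟩ := hex _ hpos
        have := hmin (⟨ball_subset_closedBall hq', hqs'⟩ : q' ∈ closedBall (0:ℂ) 1 ∩ L ⁻¹' {s})
        simp only [mem_ofPred_eq] at this
        linarith
      have hΦq : Φ q = p := dist_eq_zero.1 hq0
      refine ⟨q, ?_, hq.2, hΦq⟩
      rcases eq_or_lt_of_le (mem_closedBall_zero_iff.1 hq.1) with h | h
      · exact mem_sphere_zero_iff_norm.2 h
      · exfalso
        apply hpD
        rw [← hΦq, ← himb]
        exact mem_image_of_mem _ (mem_ball_zero_iff.2 h)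
    -- angles
    have hLexp : ∀ θ : ℝ, L (exp (θ * I)) = ‖u‖ * Real.cos (θ - arg u) := by
      intro θ
      have h3 : (starRingEnd ℂ) u = ‖u‖ * exp (-(arg u) * I) := by
        conv_lhs => rw [← norm_mul_exp_arg_mul_I u]
        rw [map_mul, conj_ofReal, ← exp_conj]
        simp
      rw [hL]
      simp only
      rw [h3, mul_left_comm, ← exp_add, re_ofReal_mul]
      congr 1
      have h4 : (θ : ℂ) * I + -(arg u) * I = ((θ - arg u : ℝ) : ℂ) * I := by
        push_cast; ring
      rw [h4, exp_ofReal_mul_I_re]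
    have habs : ∀ ζ ∈ sphere (0:ℂ) 1, |L ζ| ≤ ‖u‖ := by
      intro ζ hζ
      refine (abs_re_le_norm _).trans ?_
      rw [norm_mul, mem_sphere_zero_iff_norm.1 hζ, one_mul, RCLike.norm_conj]
    have hb1 := abs_le.1 (habs ζ1 h1)
    have hb2 := abs_le.1 (habs ζ2 h2)
    set t1 := Real.arccos (L ζ1 / ‖u‖) with ht1
    set t2 := Real.arccos (L ζ2 / ‖u‖) with ht2
    have r1 : -1 ≤ L ζ1 / ‖u‖ := by rw [le_div_iff₀ hun]; linarith
    have r2 : L ζ2 / ‖u‖ ≤ 1 := by rw [div_le_iff₀ hun]; linarith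
    have r12 : L ζ1 / ‖u‖ < L ζ2 / ‖u‖ := by
      apply div_lt_div_of_pos_right hL12 hun
    have ht : t2 < t1 := by
      rw [ht1, ht2]
      exact Real.arccos_lt_arccos r1 r12 r2
    have ht1pi : t1 ≤ π := Real.arccos_le_pi _
    have ht20 : 0 ≤ t2 := Real.arccos_nonneg _
    have hcos : ∀ t ∈ Ioo t2 t1, ‖u‖ * Real.cos t ∈ Ioo (L ζ1) (L ζ2) := by
      intro t htt
      have c1 : Real.cos t1 = L ζ1 / ‖u‖ := Real.cos_arccos r1 (by linarith)
      have c2 : Real.cos t2 = L ζ2 / ‖u‖ := Real.cos_arccos (by linarith) r2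
      have c3 : Real.cos t < Real.cos t2 :=
        Real.cos_lt_cos_of_nonneg_of_le_pi ht20 (by linarith [htt.2]) htt.1
      have c4 : Real.cos t1 < Real.cos t :=
        Real.cos_lt_cos_of_nonneg_of_le_pi (by linarith [htt.1]) ht1pi htt.2
      rw [c1, div_lt_iff₀ hun] at c4
      rw [c2, lt_div_iff₀ hun] at c3
      exact ⟨by linarith, by linarith⟩
    have hor : ∀ t ∈ Ioo t2 t1, Φ (exp ((arg u + t : ℝ) * I)) = p ∨
        Φ (exp ((arg u - t : ℝ) * I)) = p := by
      intro t htt
      obtain ⟨q, hq, hqs, hqp⟩ := hA _ (hcos t htt)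
      have hqe : q = exp (arg q * I) := by
        have := norm_mul_exp_arg_mul_I q
        rw [mem_sphere_zero_iff_norm.1 hq, ofReal_one, one_mul] at this
        exact this.symm
      rw [hqe, hLexp] at hqs
      have h3 : Real.cos (arg q - arg u) = Real.cos t := by
        exact mul_left_cancel₀ hun.ne' hqs
      rw [eq_comm, Real.cos_eq_cos_iff] at h3
      obtain ⟨k, h3 | h3⟩ := h3
      · left
        have h4 : exp ((arg u + t : ℝ) * I) = q := by
          conv_rhs => rw [hqe]
          rw [Complex.exp_eq_exp_iff_exists_int]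
          refine ⟨-k, ?_⟩
          have h5 : arg u + t = arg q - 2 * k * π := by linarith
          rw [h5]
          push_cast
          ring
        rw [h4, hqp]
      · right
        have h4 : exp ((arg u - t : ℝ) * I) = q := by
          conv_rhs => rw [hqe]
          rw [Complex.exp_eq_exp_iff_exists_int]
          refine ⟨-k, ?_⟩
          have h5 : arg u - t = arg q - 2 * k * π := by linarith
          rw [h5]
          push_cast
          ring
        rw [h4, hqp]
    have hfin : ∀ α β : ℝ, α < β → (∀ θ ∈ Ioo α β, Φ (exp (θ * I)) = p) → False := by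
      intro α β hαβ h
      apply hpD
      rw [← const_of_arc hΦc hdiff hαβ h]
      exact hΦ0
    by_cases hall : ∀ t ∈ Ioo t2 t1, Φ (exp ((arg u + t : ℝ) * I)) = p
    · refine hfin (arg u + t2) (arg u + t1) (by linarith) fun θ hθ => ?_
      have := hall (θ - arg u) ⟨by linarith [hθ.1], by linarith [hθ.2]⟩
      rwa [add_sub_cancel] at this
    · push Not at hall
      obtain ⟨t0, ht0, hne0⟩ := hall
      have hcont : Continuous (fun t : ℝ => Φ (exp ((arg u + t : ℝ) * I))) := by
        refine hΦc.comp_continuous (by fun_prop) fun t => ?_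
        rw [mem_closedBall_zero_iff, norm_exp_ofReal_mul_I]
      have h3 : ∀ᶠ t in 𝓝 t0, Φ (exp ((arg u + t : ℝ) * I)) ≠ p ∧ t ∈ Ioo t2 t1 :=
        (hcont.continuousAt.eventually_ne hne0).and (isOpen_Ioo.mem_nhds ht0)
      obtain ⟨e, he, hball⟩ := Metric.eventually_nhds_iff.1 h3
      refine hfin (arg u - t0 - e) (arg u - t0 + e) (by linarith) fun θ hθ => ?_
      have h4 : dist (arg u - θ) t0 < e := by
        rw [Real.dist_eq, abs_lt]
        constructor <;> linarith [hθ.1, hθ.2]
      have h5 := hball h4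
      have h6 := (hor _ h5.2).resolve_left h5.1
      rwa [sub_sub_cancel] at h6
  refine ⟨Φ, hΦc, hdiff, ?_, himb, ?_⟩
  · intro z hz w hw hzw
    rcases eq_or_lt_of_le (mem_closedBall_zero_iff.1 hz) with h | h <;>
      rcases eq_or_lt_of_le (mem_closedBall_zero_iff.1 hw) with h' | h'
    · exact hinj z (mem_sphere_zero_iff_norm.2 h) w (mem_sphere_zero_iff_norm.2 h') hzw
    · exfalso
      apply hdisj _ (hsph z (mem_sphere_zero_iff_norm.2 h))
      rw [hzw, ← himb]
      exact mem_image_of_mem _ (mem_ball_zero_iff.2 h')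
    · exfalso
      apply hdisj _ (hsph w (mem_sphere_zero_iff_norm.2 h'))
      rw [← hzw, ← himb]
      exact mem_image_of_mem _ (mem_ball_zero_iff.2 h)
    · have m1 := mem_ball_zero_iff.2 h
      have m2 := mem_ball_zero_iff.2 h'
      rw [hΦe z m1, hΦe w m2] at hzw
      exact hb.injOn m1 m2 hzw
  · apply Subset.antisymm
    · rintro _ ⟨ζ, hζ, rfl⟩
      exact hsph ζ hζ
    · intro p hp
      have h1 : closure D ⊆ Φ '' closedBall 0 1 := by
        apply closure_minimal
        · rw [← himb]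
          exact image_mono ball_subset_closedBall
        · exact ((isCompact_closedBall 0 1).image_of_continuousOn hΦc).isClosed
      obtain ⟨z, hz, rfl⟩ := h1 (frontier_subset_closure hp)
      refine ⟨z, ?_, rfl⟩
      rcases eq_or_lt_of_le (mem_closedBall_zero_iff.1 hz) with h | h
      · exact mem_sphere_zero_iff_norm.2 h
      · exfalso
        apply hdisj _ hp
        rw [← himb]
        exact mem_image_of_mem _ (mem_ball_zero_iff.2 h)

end Pool.Agent.H69.Car
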