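import Pool.Agent.H69.Car.Inj

set_option autoImplicit false
open Set Metric Filter Topology MeasureTheory Complex
open scoped Real ComplexConjugate

/-! Conformal maps of the upper half plane onto a Jordan domain with prescribed values `a` at `0`
and `b` at infinity. -/

namespace Pool.Agent.H69.Car

open Pool.Agent.H81.Q1 (IsJordanDomain IsArcs)

/-- closed upper half plane -/
def HC : Set ℂ := {z | 0 ≤ z.im}

/-- open upper half plane -/
def HO : Set ℂ := {z | 0 < z.im}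

lemma HO_subset : HO ⊆ HC := fun z hz => le_of_lt (show 0 < z.im from hz)

/-- `φ` is a homeomorphism of the closed half plane onto `closure D \ {b}`, holomorphic inside, with
`φ 0 = a` and `φ = b` at infinity. -/
structure IsHalf (D : Set ℂ) (a b : ℂ) (φ : ℂ → ℂ) : Prop where
  cont : ContinuousOn φ HC
  inj : InjOn φ HC
  diff : DifferentiableOn ℂ φ HO
  image : φ '' HO = D
  zero : φ 0 = a
  lim : Tendsto φ (Bornology.cobounded ℂ ⊓ 𝓟 HC) (𝓝 b)
  closure : φ '' HC = closure D \ {b}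

/-- Cayley map -/
noncomputable def cay (ζ β z : ℂ) : ℂ := ζ * ((z - β) / (z - conj β))

section cay
variable {ζ β : ℂ} (hζ : ‖ζ‖ = 1) (hβ : 0 < β.im)
include hβ

lemma cay_den {z : ℂ} (hz : z ∈ HC) : z - conj β ≠ 0 := by
  intro h
  have h1 := congrArg Complex.im h
  rw [sub_im, conj_im, zero_im] at h1
  have h2 : 0 ≤ z.im := hz
  linarith

omit hβ in
lemma norm_id (z : ℂ) : ‖z - conj β‖ ^ 2 - ‖z - β‖ ^ 2 = 4 * z.im * β.im := by
  simp only [← Complex.normSq_eq_norm_sq, Complex.normSq_apply, sub_re, sub_im, conj_re, conj_im]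
  ring

omit hβ in
include hζ in
lemma norm_cay (z : ℂ) : ‖cay ζ β z‖ = ‖z - β‖ / ‖z - conj β‖ := by
  rw [cay, norm_mul, hζ, one_mul, norm_div]

include hζ in
lemma cay_ball {z : ℂ} (hz : z ∈ HO) : cay ζ β z ∈ ball (0:ℂ) 1 := by
  have hd : 0 < ‖z - conj β‖ := norm_pos_iff.2 (cay_den hβ (HO_subset hz))
  rw [mem_ball_zero_iff, norm_cay hζ, div_lt_one hd]
  have h1 := norm_id (β := β) z
  have h2 : 0 < 4 * z.im * β.im := by
    have : 0 < z.im := hz
    positivity
  exact lt_of_pow_lt_pow_left₀ 2 hd.le (by linarith)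

include hζ in
lemma cay_closedBall {z : ℂ} (hz : z ∈ HC) : cay ζ β z ∈ closedBall (0:ℂ) 1 := by
  have hd : 0 < ‖z - conj β‖ := norm_pos_iff.2 (cay_den hβ hz)
  rw [mem_closedBall_zero_iff, norm_cay hζ, div_le_one hd]
  have h1 := norm_id (β := β) z
  have h2 : 0 ≤ 4 * z.im * β.im := by
    have : 0 ≤ z.im := hz
    positivity
  exact le_of_pow_le_pow_left₀ two_ne_zero hd.le (by linarith)

lemma cay_eq {z : ℂ} (hz : z ∈ HC) : cay ζ β z = ζ * (1 - (β - conj β) / (z - conj β)) := by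
  have := cay_den hβ hz
  rw [cay]
  field_simp
  ring

lemma beta_ne : β - conj β ≠ 0 := by
  intro h
  have h1 := congrArg Complex.im h
  rw [sub_im, conj_im, zero_im] at h1
  linarith

include hζ in
lemma cay_inj : InjOn (cay ζ β) HC := by
  intro z hz w hw h
  rw [cay_eq hβ hz, cay_eq hβ hw] at h
  have hζ0 : ζ ≠ 0 := by rintro rfl; simp at hζ
  have h1 := mul_left_cancel₀ hζ0 h
  have h2 := cay_den hβ hz
  have h3 := cay_den hβ hw
  have h4 := beta_ne hβ
  have h5 : (β - conj β) / (z - conj β) = (β - conj β) / (w - conj β) := by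
    linear_combination -h1
  rw [div_eq_div_iff h2 h3] at h5
  have h6 := mul_left_cancel₀ h4 h5
  linear_combination -h6

include hζ in
lemma cay_ne {z : ℂ} (hz : z ∈ HC) : cay ζ β z ≠ ζ := by
  rw [cay_eq hβ hz]
  intro h
  have hζ0 : ζ ≠ 0 := by rintro rfl; simp at hζ
  have h1 : ζ * ((β - conj β) / (z - conj β)) = 0 := by linear_combination -h
  rcases mul_eq_zero.1 h1 with h2 | h2
  · exact hζ0 h2
  · rcases div_eq_zero_iff.1 h2 with h3 | h3
    · exact beta_ne hβ h3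
    · exact cay_den hβ hz h3

include hζ in
/-- every point of the closed disc except `ζ` is attained -/
lemma exists_cay {v : ℂ} (hv : v ∈ closedBall (0:ℂ) 1) (hvζ : v ≠ ζ) :
    ∃ z ∈ HC, cay ζ β z = v ∧ (‖v‖ < 1 → z ∈ HO) ∧ (‖v‖ = 1 → z.im = 0) := by
  have hζ0 : ζ ≠ 0 := by rintro rfl; simp at hζ
  have hne : ζ - v ≠ 0 := sub_ne_zero.2 hvζ.symm
  set z := (ζ * β - v * conj β) / (ζ - v) with hz
  have e1 : z - β = v * (β - conj β) / (ζ - v) := by
    rw [hz]; field_simp; ring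
  have e2 : z - conj β = ζ * (β - conj β) / (ζ - v) := by
    rw [hz]; field_simp; ring
  have hb := beta_ne hβ
  have hden : z - conj β ≠ 0 := by
    rw [e2]; exact div_ne_zero (mul_ne_zero hζ0 hb) hne
  have hc : cay ζ β z = v := by
    rw [cay, e1, e2]
    field_simp
  have hn : ‖z - β‖ = ‖v‖ * ‖z - conj β‖ := by
    rw [e1, e2, norm_div, norm_div, norm_mul, norm_mul, hζ]
    ring
  have hid := norm_id (β := β) z
  rw [hn, mul_pow] at hid
  have hpos : 0 < ‖z - conj β‖ ^ 2 := by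
    have := norm_pos_iff.2 hden
    positivity
  have hv1 : ‖v‖ ≤ 1 := mem_closedBall_zero_iff.1 hv
  have hvsq : ‖v‖ ^ 2 ≤ 1 := by
    have := norm_nonneg v
    nlinarith
  have him : 4 * z.im * β.im = (1 - ‖v‖ ^ 2) * ‖z - conj β‖ ^ 2 := by
    rw [← hid]; ring
  refine ⟨z, ?_, hc, ?_, ?_⟩
  · change 0 ≤ z.im
    by_contra h
    push Not at h
    have h1 : 0 ≤ (1 - ‖v‖ ^ 2) * ‖z - conj β‖ ^ 2 := mul_nonneg (by linarith) hpos.le
    nlinarith
  · intro h
    change 0 < z.im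
    by_contra h'
    push Not at h'
    have h2 : ‖v‖ ^ 2 < 1 := by
      have := norm_nonneg v
      nlinarith
    have h1 : 0 < (1 - ‖v‖ ^ 2) * ‖z - conj β‖ ^ 2 := mul_pos (by linarith) hpos
    nlinarith
  · intro h
    rw [h] at him
    have : 4 * z.im * β.im = 0 := by rw [him]; ring
    rcases mul_eq_zero.1 this with h1 | h1
    · linarith
    · linarith

lemma cay_cont : ContinuousOn (cay ζ β) HC := by
  unfold cay
  refine continuousOn_const.mul (ContinuousOn.div (by fun_prop) (by fun_prop) ?_)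
  intro z hz
  exact cay_den hβ hz

lemma cay_diff : DifferentiableOn ℂ (cay ζ β) HO := by
  unfold cay
  refine (differentiableOn_const _).mul (DifferentiableOn.div (by fun_prop) (by fun_prop) ?_)
  intro z hz
  exact cay_den hβ (HO_subset hz)

lemma cay_tendsto : Tendsto (cay ζ β) (Bornology.cobounded ℂ ⊓ 𝓟 HC) (𝓝 ζ) := by
  have h1 : Tendsto (fun z : ℂ => ζ * (1 - (β - conj β) / (z - conj β)))
      (Bornology.cobounded ℂ ⊓ 𝓟 HC) (𝓝 (ζ * (1 - 0))) := by
    refine Tendsto.const_mul _ (Tendsto.sub tendsto_const_nhds ?_)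
    refine Tendsto.mono_left ?_ inf_le_left
    have h2 : Tendsto (fun z : ℂ => z - conj β) (Bornology.cobounded ℂ) (Bornology.cobounded ℂ) :=
      tendsto_sub_const_cobounded _
    have h3 : Tendsto (fun z : ℂ => (z - conj β)⁻¹) (Bornology.cobounded ℂ) (𝓝 0) :=
      tendsto_inv₀_cobounded.comp h2
    have h4 := h3.const_mul (β - conj β)
    rw [mul_zero] at h4
    simpa only [div_eq_mul_inv] using h4
  rw [sub_zero, mul_one] at h1
  refine h1.congr' ?_
  filter_upwards [mem_inf_of_right (mem_principal_self HC)] with z hz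
  exact (cay_eq hβ hz).symm

end cay

/-- Normalised conformal maps of the half plane onto a Jordan domain exist. -/
theorem exists_half {D : Set ℂ} (hD : IsJordanDomain D) {a b : ℂ} (ha : a ∈ frontier D)
    (hb : b ∈ frontier D) (hab : a ≠ b) : ∃ φ : ℂ → ℂ, IsHalf D a b φ := by
  obtain ⟨Φ, hΦ⟩ := exists_car hD
  rw [← hΦ.image_sphere] at ha hb
  obtain ⟨ζa, hζa, ea⟩ := ha
  obtain ⟨ζb, hζb, eb⟩ := hb
  have hne : ζa ≠ ζb := by rintro rfl; exact hab (ea.symm.trans eb)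
  have na : ‖ζa‖ = 1 := mem_sphere_zero_iff_norm.1 hζa
  have nb : ‖ζb‖ = 1 := mem_sphere_zero_iff_norm.1 hζb
  have hb0 : ζb ≠ 0 := by rintro rfl; simp at nb
  -- the square root
  obtain ⟨β, hβ, hβn, hβ2⟩ : ∃ β : ℂ, 0 < β.im ∧ ‖β‖ = 1 ∧ β ^ 2 = ζa / ζb := by
    set w := ζa / ζb with hw
    have hwn : ‖w‖ = 1 := by rw [hw, norm_div, na, nb, div_one]
    have hw1 : w ≠ 1 := by
      rw [hw, Ne, div_eq_one_iff_eq hb0]; exact hne
    have hwe : w = exp (arg w * I) := by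
      have := norm_mul_exp_arg_mul_I w
      rw [hwn, ofReal_one, one_mul] at this
      exact this.symm
    have harg : arg w ≠ 0 := by
      intro h
      apply hw1
      rw [hwe, h]
      simp
    set β0 := exp ((arg w / 2 : ℝ) * I) with hβ0
    have hsq : β0 ^ 2 = w := by
      conv_rhs => rw [hwe]
      rw [hβ0, ← exp_nat_mul]
      congr 1
      push_cast
      ring
    have hnorm : ‖β0‖ = 1 := norm_exp_ofReal_mul_I _
    have him : β0.im = Real.sin (arg w / 2) := exp_ofReal_mul_I_im _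
    have hlt := neg_pi_lt_arg w
    have hle := arg_le_pi w
    rcases lt_or_gt_of_ne harg with h | h
    · refine ⟨-β0, ?_, by rw [norm_neg]; exact hnorm, by rw [neg_sq]; exact hsq⟩
      rw [neg_im, him, ← Real.sin_neg]
      apply Real.sin_pos_of_pos_of_lt_pi <;> linarith
    · refine ⟨β0, ?_, hnorm, hsq⟩
      rw [him]
      apply Real.sin_pos_of_pos_of_lt_pi <;> linarith
  set m := cay ζb β with hm
  have hm0 : m 0 = ζa := by
    rw [hm, cay, zero_sub, zero_sub, neg_div_neg_eq]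
    have h1 : β * conj β = 1 := by
      rw [mul_conj, Complex.normSq_eq_norm_sq, hβn]; simp
    have h2 : conj β ≠ 0 := by
      intro h; rw [h, mul_zero] at h1; exact zero_ne_one h1
    have h3 : β / conj β = β ^ 2 := by
      rw [div_eq_iff h2]
      linear_combination -β * h1
    rw [h3, hβ2, mul_div_cancel₀ _ hb0]
  refine ⟨fun z => Φ (m z), ?_, ?_, ?_, ?_, ?_, ?_, ?_⟩
  · exact hΦ.cont.comp (cay_cont hβ) fun z hz => cay_closedBall nb hβ hz
  · exact hΦ.inj.comp (cay_inj nb hβ) fun z hz => cay_closedBall nb hβ hz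
  · exact hΦ.diff.comp (cay_diff hβ) fun z hz => cay_ball nb hβ hz
  · rw [← hΦ.image_ball]
    apply Subset.antisymm
    · rintro _ ⟨z, hz, rfl⟩
      exact mem_image_of_mem _ (cay_ball nb hβ hz)
    · rintro _ ⟨v, hv, rfl⟩
      have hvn := mem_ball_zero_iff.1 hv
      obtain ⟨z, hz, e, h1, -⟩ := exists_cay nb hβ (ball_subset_closedBall hv)
        (by rintro rfl; rw [nb] at hvn; exact lt_irrefl _ hvn)
      exact ⟨z, h1 hvn, by simp only [hm, e]⟩
  · simp only [hm0, ea]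
  · have h1 : Tendsto m (Bornology.cobounded ℂ ⊓ 𝓟 HC) (𝓝[closedBall 0 1] ζb) := by
      rw [tendsto_nhdsWithin_iff]
      refine ⟨cay_tendsto hβ, ?_⟩
      filter_upwards [mem_inf_of_right (mem_principal_self HC)] with z hz
      exact cay_closedBall nb hβ hz
    have h2 := (hΦ.cont ζb (sphere_subset_closedBall hζb)).tendsto.comp h1
    rwa [eb] at h2
  · have hcl : closure D = Φ '' closedBall 0 1 := by
      rw [← ball_union_sphere, image_union, hΦ.image_ball, hΦ.image_sphere,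
        closure_eq_self_union_frontier]
    rw [hcl]
    apply Subset.antisymm
    · rintro _ ⟨z, hz, rfl⟩
      refine ⟨mem_image_of_mem _ (cay_closedBall nb hβ hz), ?_⟩
      rw [mem_singleton_iff]
      intro h
      rw [← eb] at h
      exact cay_ne nb hβ hz
        (hΦ.inj (cay_closedBall nb hβ hz) (sphere_subset_closedBall hζb) h)
    · rintro _ ⟨⟨v, hv, rfl⟩, h⟩
      obtain ⟨z, hz, e, -, -⟩ := exists_cay nb hβ hv
        (by rintro rfl; exact h eb)
      exact ⟨z, hz, by simp only [hm, e]⟩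

namespace IsHalf
variable {D : Set ℂ} {a b : ℂ} {φ : ℂ → ℂ} (h : IsHalf D a b φ)
include h

/-- the real line is mapped onto the boundary curve without `b` -/
lemma image_real (hD : IsOpen D) : φ '' {z | z.im = 0} = frontier D \ {b} := by
  have h1 : {z : ℂ | z.im = 0} = HC \ HO := by
    ext z
    constructor
    · intro h; exact ⟨(show z.im = 0 from h).ge, not_lt.2 (show z.im = 0 from h).le⟩
    · rintro ⟨h1, h2⟩; exact le_antisymm (not_lt.1 h2) h1
  rw [h1, h.inj.image_sdiff_subset HO_subset, h.image, h.closure, hD.frontier_eq]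
  ext z
  constructor
  · rintro ⟨⟨h1, h2⟩, h3⟩; exact ⟨⟨h1, h3⟩, h2⟩
  · rintro ⟨⟨h1, h2⟩, h3⟩; exact ⟨⟨h1, h3⟩, h2⟩

lemma notMem : b ∉ φ '' HC := by
  rw [h.closure]
  simp

lemma mapsTo_real (hD : IsOpen D) {x : ℝ} : φ x ∈ frontier D ∧ φ x ≠ b := by
  have : φ x ∈ φ '' {z | z.im = 0} := mem_image_of_mem _ (ofReal_im x)
  rw [h.image_real hD] at this
  exact this

lemma cont_real : Continuous (fun x : ℝ => φ x) := by
  refine h.cont.comp_continuous continuous_ofReal fun x => ?_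
  change 0 ≤ (x : ℂ).im
  rw [ofReal_im]

lemma inj_real {x y : ℝ} (hxy : φ x = φ y) : x = y := by
  have := h.inj (show (x : ℂ) ∈ HC by change 0 ≤ (x : ℂ).im; rw [ofReal_im])
    (show (y : ℂ) ∈ HC by change 0 ≤ (y : ℂ).im; rw [ofReal_im]) hxy
  exact_mod_cast this

lemma tendsto_atTop : Tendsto (fun x : ℝ => φ x) atTop (𝓝 b) := by
  refine h.lim.comp (tendsto_inf.2 ⟨?_, tendsto_principal.2 (Eventually.of_forall fun x => ?_)⟩)
  · exact RCLike.tendsto_ofReal_atTop_cobounded ℂ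
  · change 0 ≤ (x : ℂ).im
    rw [ofReal_im]

lemma tendsto_atBot : Tendsto (fun x : ℝ => φ x) atBot (𝓝 b) := by
  refine h.lim.comp (tendsto_inf.2 ⟨?_, tendsto_principal.2 (Eventually.of_forall fun x => ?_)⟩)
  · exact RCLike.tendsto_ofReal_atBot_cobounded ℂ
  · change 0 ≤ (x : ℂ).im
    rw [ofReal_im]

/-- The two half lines are mapped onto the two arcs. -/
theorem arcs (hD : IsOpen D) (hab : a ≠ b) {A₁ A₂ : Set ℂ} (hA : IsArcs D a b A₁ A₂) :
    ((fun x : ℝ => φ x) '' Ioi 0 ∪ {a, b} = A₁ ∧ (fun x : ℝ => φ x) '' Iio 0 ∪ {a, b} = A₂) ∨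
    ((fun x : ℝ => φ x) '' Ioi 0 ∪ {a, b} = A₂ ∧ (fun x : ℝ => φ x) '' Iio 0 ∪ {a, b} = A₁) := by
  set g : ℝ → ℂ := fun x => φ x with hg
  have hgc : Continuous g := h.cont_real
  have hg0 : g 0 = a := by rw [hg]; simp only [ofReal_zero]; exact h.zero
  have hgi : Function.Injective g := fun x y hxy => h.inj_real hxy
  have hga : ∀ x : ℝ, x ≠ 0 → g x ≠ a := fun x hx h1 => hx (hgi (h1.trans hg0.symm))
  have hgb : ∀ x : ℝ, g x ≠ b := fun x => (h.mapsTo_real hD).2
  have hgf : ∀ x : ℝ, g x ∈ frontier D := fun x => (h.mapsTo_real hD).1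
  have hcov : ∀ y ∈ frontier D, y ≠ a → y ≠ b → y ∈ g '' Ioi 0 ∨ y ∈ g '' Iio 0 := by
    intro y hy hya hyb
    have h1 : y ∈ φ '' {z | z.im = 0} := by
      rw [h.image_real hD]; exact ⟨hy, hyb⟩
    obtain ⟨z, hz, rfl⟩ := h1
    have hz' : z = (z.re : ℂ) := by
      apply Complex.ext
      · simp
      · rw [ofReal_im]; exact hz
    rcases lt_trichotomy z.re 0 with h2 | h2 | h2
    · right; exact ⟨z.re, h2, by rw [hg]; simp only; rw [← hz']⟩
    · exfalso
      apply hya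
      rw [hz', h2, ofReal_zero]
      exact h.zero
    · left; exact ⟨z.re, h2, by rw [hg]; simp only; rw [← hz']⟩
  -- a connected set which avoids `a`, `b` lies in one arc
  have hone : ∀ S : Set ℝ, IsPreconnected S → (∀ x ∈ S, x ≠ 0) → g '' S ⊆ A₁ ∨ g '' S ⊆ A₂ := by
    intro S hS hS0
    have hpre : IsPreconnected (g '' S) := hS.image _ hgc.continuousOn
    rw [isPreconnected_closed_iff] at hpre
    by_contra hcon
    push Not at hcon
    obtain ⟨h1, h2⟩ := hcon
    rw [not_subset] at h1 h2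
    obtain ⟨y1, hy1, hy1'⟩ := h1
    obtain ⟨y2, hy2, hy2'⟩ := h2
    have hsub : g '' S ⊆ A₁ ∪ A₂ := by
      rintro _ ⟨x, hx, rfl⟩
      rw [hA.union]; exact hgf x
    have m1 : y1 ∈ A₂ := (hsub hy1).resolve_left hy1'
    have m2 : y2 ∈ A₁ := (hsub hy2).resolve_right hy2'
    obtain ⟨y, ⟨x, hx, rfl⟩, hy⟩ := hpre A₁ A₂ hA.closed₁ hA.closed₂ hsub ⟨y2, hy2, m2⟩
      ⟨y1, hy1, m1⟩
    rw [hA.inter] at hy
    rcases hy with hy | hy
    · exact hga x (hS0 x hx) hy
    · exact hgb x hy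
  have hnot : ∀ A : Set ℂ, IsConnected A → A ≠ {a, b} := by
    intro A hAc hAe
    rw [hAe] at hAc
    have := hAc.isPreconnected
    rw [isPreconnected_closed_iff] at this
    obtain ⟨y, -, hy⟩ := this {a} {b} isClosed_singleton isClosed_singleton
      (fun y hy => hy) ⟨a, Or.inl rfl, rfl⟩ ⟨b, Or.inr rfl, rfl⟩
    exact hab (hy.1.symm.trans hy.2)
  have habA : a ∈ A₁ ∧ a ∈ A₂ ∧ b ∈ A₁ ∧ b ∈ A₂ := by
    have h1 : a ∈ A₁ ∩ A₂ := by rw [hA.inter]; exact Or.inl rfl
    have h2 : b ∈ A₁ ∩ A₂ := by rw [hA.inter]; exact Or.inr rfl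
    exact ⟨h1.1, h1.2, h2.1, h2.2⟩
  have hfr1 : A₁ ⊆ frontier D := by rw [← hA.union]; exact subset_union_left
  have hfr2 : A₂ ⊆ frontier D := by rw [← hA.union]; exact subset_union_right
  -- points of both arcs
  have hboth : ∀ y, y ∈ A₁ → y ∈ A₂ → y = a ∨ y = b := by
    intro y h1 h2
    have : y ∈ A₁ ∩ A₂ := ⟨h1, h2⟩
    rw [hA.inter] at this
    exact this
  have hP := hone (Ioi 0) isPreconnected_Ioi fun x hx => ne_of_gt hx
  have hN := hone (Iio 0) isPreconnected_Iio fun x hx => ne_of_lt hx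
  -- main step
  have main : ∀ (S T : Set ℝ) (B C : Set ℂ), (∀ x ∈ S, x ≠ 0) → (∀ x ∈ T, x ≠ 0) →
      (∀ y ∈ frontier D, y ≠ a → y ≠ b → y ∈ g '' S ∨ y ∈ g '' T) →
      B ⊆ frontier D → a ∈ B → b ∈ B → (∀ y, y ∈ B → y ∈ C → y = a ∨ y = b) →
      g '' S ⊆ B → g '' T ⊆ C → g '' S ∪ {a, b} = B := by
    intro S T B C hS hT hST hB ha hb hBC hSB hTC
    apply Subset.antisymm
    · rintro y (hy | hy | hy)
      · exact hSB hy
      · rw [hy]; exact ha
      · rw [mem_singleton_iff.1 hy]; exact hb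
    · intro y hy
      by_cases h1 : y = a
      · right; left; exact h1
      by_cases h2 : y = b
      · right; right; exact h2
      rcases hST y (hB hy) h1 h2 with h3 | h3
      · exact Or.inl h3
      · rcases hBC y hy (hTC h3) with h4 | h4
        · exact absurd h4 h1
        · exact absurd h4 h2
  have hS0 : ∀ x ∈ Ioi (0:ℝ), x ≠ 0 := fun x hx => ne_of_gt hx
  have hT0 : ∀ x ∈ Iio (0:ℝ), x ≠ 0 := fun x hx => ne_of_lt hx
  have hcov' : ∀ y ∈ frontier D, y ≠ a → y ≠ b → y ∈ g '' Iio 0 ∨ y ∈ g '' Ioi 0 :=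
    fun y h1 h2 h3 => (hcov y h1 h2 h3).symm
  have hboth' : ∀ y, y ∈ A₂ → y ∈ A₁ → y = a ∨ y = b := fun y h1 h2 => hboth y h2 h1
  have hdeg : ∀ B C : Set ℂ, C ⊆ frontier D → a ∈ C → b ∈ C → IsConnected C →
      (∀ y, y ∈ C → y ∈ B → y = a ∨ y = b) → g '' Ioi 0 ⊆ B → g '' Iio 0 ⊆ B → False := by
    intro B C hC ha hb hCc hCB h1 h2
    apply hnot C hCc
    apply Subset.antisymm
    · intro y hy
      by_contra hcon
      have h3 : y ≠ a := fun e => hcon (Or.inl e)
      have h4 : y ≠ b := fun e => hcon (Or.inr e)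
      have h5 : y ∈ B := by
        rcases hcov y (hC hy) h3 h4 with h | h
        · exact h1 h
        · exact h2 h
      rcases hCB y hy h5 with h | h
      · exact h3 h
      · exact h4 h
    · rintro y (rfl | hy)
      · exact ha
      · rw [mem_singleton_iff.1 hy]; exact hb
  obtain ⟨a1, a2, b1, b2⟩ := habA
  rcases hP with hP | hP <;> rcases hN with hN | hN
  · exact (hdeg A₁ A₂ hfr2 a2 b2 hA.conn₂ hboth' hP hN).elim
  · left
    exact ⟨main _ _ A₁ A₂ hS0 hT0 hcov hfr1 a1 b1 hboth hP hN,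
      main _ _ A₂ A₁ hT0 hS0 hcov' hfr2 a2 b2 hboth' hN hP⟩
  · right
    exact ⟨main _ _ A₂ A₁ hS0 hT0 hcov hfr2 a2 b2 hboth' hP hN,
      main _ _ A₁ A₂ hT0 hS0 hcov' hfr1 a1 b1 hboth hN hP⟩
  · exact (hdeg A₂ A₁ hfr1 a1 b1 hA.conn₁ hboth hP hN).elim

end IsHalf

/-- **Riemann-Caratheodory**, normalised: for a Jordan domain `D`, `a ≠ b` on the boundary and the
two arcs between them. -/
theorem riemann_caratheodory {D : Set ℂ} (hD : IsJordanDomain D) {a b : ℂ} (hab : a ≠ b)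
    {A₁ A₂ : Set ℂ} (hA : IsArcs D a b A₁ A₂) : ∃ φ : ℂ → ℂ, IsHalf D a b φ ∧
    (((fun x : ℝ => φ x) '' Ioi 0 ∪ {a, b} = A₁ ∧ (fun x : ℝ => φ x) '' Iio 0 ∪ {a, b} = A₂) ∨
    ((fun x : ℝ => φ x) '' Ioi 0 ∪ {a, b} = A₂ ∧
      (fun x : ℝ => φ x) '' Iio 0 ∪ {a, b} = A₁)) := by
  have h1 : a ∈ frontier D ∧ b ∈ frontier D := by
    have h1 : a ∈ A₁ ∩ A₂ := by rw [hA.inter]; exact Or.inl rfl
    have h2 : b ∈ A₁ ∩ A₂ := by rw [hA.inter]; exact Or.inr rfl
    rw [← hA.union]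
    exact ⟨Or.inl h1.1, Or.inl h2.1⟩
  obtain ⟨φ, hφ⟩ := exists_half hD h1.1 h1.2 hab
  exact ⟨φ, hφ, hφ.arcs hD.1 hab hA⟩

end Pool.Agent.H69.Car
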