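import Pool.Agent.H69.Car.Half
import Pool.Agent.H96.M7.Chart

set_option autoImplicit false
open Set Metric Filter Topology Complex
open scoped Real ComplexConjugate

/-! Conformal automorphisms of the half plane fixing `0` and infinity are scalings; charts are
unique up to scaling. -/

namespace Pool.Agent.H69.Car

open Pool.Agent.H82.Q1 (HH cHH IsChart)
open Pool.Agent.H96.M7 (psi psi_left psi_mem psi_right psi_cont psi_UH chart_sub chart_bij HH_sub)

/-- inverse of `cay 1 I` -/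
noncomputable def icay (w : ℂ) : ℂ := I * ((1 + w) / (1 - w))

lemma one_sub_ne {w : ℂ} (hw : w ∈ ball (0:ℂ) 1) : 1 - w ≠ 0 := by
  intro h
  have h1 : w = 1 := (sub_eq_zero.1 h).symm
  rw [mem_ball_zero_iff, h1, norm_one] at hw
  exact lt_irrefl _ hw

lemma icay_mem {w : ℂ} (hw : w ∈ ball (0:ℂ) 1) : icay w ∈ HO ∧ cay 1 I (icay w) = w := by
  have hne := one_sub_ne hw
  have h1 : (1:ℂ) ≠ w := fun h => hne (sub_eq_zero.2 h)
  have hI : 0 < (I:ℂ).im := by rw [I_im]; exact one_pos
  obtain ⟨z, hz, hz2, hz3, -⟩ := exists_cay (ζ := 1) (β := I) norm_one hI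
    (ball_subset_closedBall hw) h1.symm
  have hzO := hz3 (mem_ball_zero_iff.1 hw)
  have hd := cay_den hI hz
  rw [conj_I, sub_neg_eq_add] at hd
  have e : icay w = z := by
    rw [icay, ← hz2, cay, one_mul, conj_I, sub_neg_eq_add]
    have h2 : (1:ℂ) - (z - I) / (z + I) = 2 * I / (z + I) := by field_simp; ring
    have h3 : (1:ℂ) + (z - I) / (z + I) = 2 * z / (z + I) := by field_simp; ring
    rw [h2, h3]
    have hI0 : (I:ℂ) ≠ 0 := I_ne_zero
    field_simp
  rw [e]
  exact ⟨hzO, hz2⟩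

lemma icay_diff : DifferentiableOn ℂ icay (ball 0 1) := by
  unfold icay
  refine (differentiableOn_const _).mul (DifferentiableOn.div (by fun_prop) (by fun_prop) ?_)
  intro w hw
  exact one_sub_ne hw

/-- Schwarz-Pick -/
lemma pick {m : ℂ → ℂ} (hm : DifferentiableOn ℂ m HO) (hmaps : MapsTo m HO HO) {α z : ℂ}
    (hα : α ∈ HO) (hz : z ∈ HO) : ‖cay 1 (m α) (m z)‖ ≤ ‖cay 1 α z‖ := by
  have hα' : 0 < α.im := hα
  have hβ : 0 < (m α).im := hmaps hα
  -- parametrise with the affine map from `I` to `α`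
  set A : ℂ → ℂ := fun u => (α.im : ℂ) * u + α.re with hA
  have hAI : A I = α := by
    rw [hA]; apply Complex.ext <;> simp
  have hAm : MapsTo A HO HO := by
    intro u hu
    have hu' : 0 < u.im := hu
    change 0 < (A u).im
    simp only [hA, add_im, mul_im, ofReal_re, ofReal_im, zero_mul, add_zero]
    positivity
  have hAc : ∀ u, cay 1 α (A u) = cay 1 I u := by
    intro u
    have h1 : A u - α = α.im * (u - I) := by
      rw [hA]; apply Complex.ext <;> simp
      ring
    have h2 : A u - conj α = α.im * (u - conj I) := by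
      rw [hA]; apply Complex.ext <;> simp
      ring
    have h3 : (α.im : ℂ) ≠ 0 := ofReal_ne_zero.2 hα'.ne'
    rw [cay, cay, h1, h2, mul_div_mul_left _ _ h3]
  set g : ℂ → ℂ := fun w => cay 1 (m α) (m (A (icay w))) with hg
  have hgd : DifferentiableOn ℂ g (ball 0 1) := by
    have hAd : DifferentiableOn ℂ (fun w => A (icay w)) (ball 0 1) := by
      simp only [hA]
      exact (icay_diff.const_mul _).add_const _
    refine (cay_diff hβ).comp (hm.comp hAd ?_) ?_
    · intro w hw; exact hAm (icay_mem hw).1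
    · intro w hw; exact hmaps (hAm (icay_mem hw).1)
  have hgm : MapsTo g (ball 0 1) (ball 0 1) := by
    intro w hw
    exact cay_ball norm_one hβ (hmaps (hAm (icay_mem hw).1))
  have hg0 : g 0 = 0 := by
    have : icay 0 = I := by simp [icay]
    rw [hg]
    simp only [this, hAI]
    simp [cay]
  -- the point
  obtain ⟨u, hu, rfl⟩ : ∃ u ∈ HO, A u = z := by
    refine ⟨(z - α.re) / α.im, ?_, ?_⟩
    · change 0 < ((z - α.re) / α.im).im
      rw [div_ofReal_im, sub_im, ofReal_im, sub_zero]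
      exact div_pos hz hα'
    · simp only [hA]
      have h3 : (α.im : ℂ) ≠ 0 := ofReal_ne_zero.2 hα'.ne'
      field_simp
      ring
  have hI : 0 < (I:ℂ).im := by rw [I_im]; exact one_pos
  have hw : cay 1 I u ∈ ball (0:ℂ) 1 := cay_ball norm_one hI hu
  have hiu : icay (cay 1 I u) = u := by
    have h1 := icay_mem hw
    exact cay_inj (ζ := 1) norm_one hI (HO_subset h1.1) (HO_subset hu) h1.2
  have h1 := norm_le_norm_of_mapsTo_ball hgd (hgm.mono_right ball_subset_closedBall) hg0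
    (mem_ball_zero_iff.1 hw)
  rw [hAc]
  calc ‖cay 1 (m α) (m (A u))‖ = ‖g (cay 1 I u)‖ := by rw [hg]; simp only [hiu]
    _ ≤ _ := h1

/-- Automorphisms of the half plane with `0 ↦ 0` and `∞ ↦ ∞` are scalings. -/
theorem scaling {m n : ℂ → ℂ} (hm : DifferentiableOn ℂ m HO) (hmaps : MapsTo m HO HO)
    (hn : DifferentiableOn ℂ n HO) (hnaps : MapsTo n HO HO) (hnm : ∀ z ∈ HO, n (m z) = z)
    (h0 : Tendsto m (𝓝[HO] 0) (𝓝 0))
    (hinf : Tendsto m (Bornology.cobounded ℂ ⊓ 𝓟 HO) (Bornology.cobounded ℂ)) :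
    ∃ k : ℝ, 0 < k ∧ ∀ z ∈ HO, m z = k * z := by
  have hI : 0 < (I:ℂ).im := by rw [I_im]; exact one_pos
  have hIO : I ∈ HO := hI
  set β := m I with hβd
  have hβ : 0 < β.im := hmaps hIO
  set g : ℂ → ℂ := fun w => cay 1 β (m (icay w)) with hg
  have hgd : DifferentiableOn ℂ g (ball 0 1) := by
    refine (cay_diff hβ).comp (hm.comp icay_diff ?_) ?_
    · intro w hw; exact (icay_mem hw).1
    · intro w hw; exact hmaps (icay_mem hw).1
  have hgm : MapsTo g (ball 0 1) (ball 0 1) := by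
    intro w hw
    exact cay_ball norm_one hβ (hmaps (icay_mem hw).1)
  have hg0 : g 0 = 0 := by
    have : icay 0 = I := by simp [icay]
    simp only [hg, this, ← hβd]
    simp [cay]
  have hnorm : ∀ z ∈ HO, ‖cay 1 β (m z)‖ = ‖cay 1 I z‖ := by
    intro z hz
    refine le_antisymm (pick hm hmaps hIO hz) ?_
    have h1 := pick hn hnaps (hmaps hIO) (hmaps hz)
    rwa [hnm _ hIO, hnm _ hz] at h1
  have hz2 : (2 * I : ℂ) ∈ HO := by
    change 0 < (2 * I : ℂ).im
    simp
  have hiu : ∀ u ∈ HO, icay (cay 1 I u) = u := by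
    intro u hu
    have h1 := icay_mem (cay_ball norm_one hI hu)
    exact cay_inj (ζ := 1) norm_one hI (HO_subset h1.1) (HO_subset hu) h1.2
  set w₀ := cay 1 I (2 * I) with hw₀
  have hw₀b : w₀ ∈ ball (0:ℂ) 1 := cay_ball norm_one hI hz2
  have hw₀0 : w₀ ≠ 0 := by
    rw [hw₀, cay, one_mul]
    refine div_ne_zero ?_ (cay_den hI (HO_subset hz2))
    rw [two_mul, add_sub_cancel_right]
    exact I_ne_zero
  have hds : ‖dslope g 0 w₀‖ = 1 / 1 := by
    rw [dslope_of_ne _ hw₀0, slope_def_field, hg0, sub_zero, sub_zero, norm_div]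
    have : g w₀ = cay 1 β (m (2 * I)) := by simp only [hg, hw₀, hiu _ hz2]
    rw [this, hnorm _ hz2, ← hw₀, div_self (norm_ne_zero_iff.2 hw₀0), div_one]
  have haff := affine_of_mapsTo_ball_of_norm_dslope_eq_div (f := g) (c := 0) (R₁ := 1) (R₂ := 1)
    hgd (by rw [hg0]; exact hgm.mono_right ball_subset_closedBall) hw₀b hds
  set c := dslope g 0 w₀ with hc
  have key : ∀ z ∈ HO, cay 1 β (m z) = cay 1 I z * c := by
    intro z hz
    have h1 := haff (cay_ball norm_one hI hz)
    simp only [hg0, zero_add, sub_zero, smul_eq_mul] at h1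
    rw [← h1]
    simp only [hg, hiu _ hz]
  -- infinity
  have hc1 : c = 1 := by
    have hne : (Bornology.cobounded ℂ ⊓ 𝓟 HO).NeBot := by
      rw [inf_principal_neBot_iff]
      intro U hU
      obtain ⟨R, -, hR⟩ := (Metric.hasBasis_cobounded_compl_closedBall (0 : ℂ)).mem_iff.1 hU
      refine ⟨((|R| + 1 : ℝ) : ℂ) * I, hR ?_, ?_⟩
      · rw [mem_compl_iff, mem_closedBall, dist_zero_right, norm_mul, norm_I, mul_one, norm_real,
          Real.norm_eq_abs, abs_of_pos (by positivity), not_le]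
        have := le_abs_self R
        linarith
      · change 0 < (((|R| + 1 : ℝ) : ℂ) * I).im
        simp
        positivity
    have hle : (Bornology.cobounded ℂ ⊓ 𝓟 HO) ≤ Bornology.cobounded ℂ ⊓ 𝓟 HC :=
      inf_le_inf_left _ (principal_mono.2 HO_subset)
    have h1 : Tendsto (fun z => cay 1 β (m z)) (Bornology.cobounded ℂ ⊓ 𝓟 HO) (𝓝 1) := by
      refine (cay_tendsto hβ).comp (tendsto_inf.2 ⟨hinf, ?_⟩)
      refine tendsto_principal.2 ?_
      filter_upwards [mem_inf_of_right (mem_principal_self HO)] with z hz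
      exact HO_subset (hmaps hz)
    have h2 : Tendsto (fun z => cay 1 I z * c) (Bornology.cobounded ℂ ⊓ 𝓟 HO) (𝓝 (1 * c)) :=
      ((cay_tendsto hI).mono_left hle).mul_const c
    have h3 : Tendsto (fun z => cay 1 β (m z)) (Bornology.cobounded ℂ ⊓ 𝓟 HO) (𝓝 (1 * c)) := by
      refine h2.congr' ?_
      filter_upwards [mem_inf_of_right (mem_principal_self HO)] with z hz
      exact (key z hz).symm
    rw [← one_mul c]
    exact tendsto_nhds_unique h3 h1
  have hβre : β.re = 0 := by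
    have hne : (𝓝[HO] (0:ℂ)).NeBot := by
      rw [← mem_closure_iff_nhdsWithin_neBot, Metric.mem_closure_iff]
      intro ε hε
      refine ⟨((ε / 2 : ℝ) : ℂ) * I, ?_, ?_⟩
      · change 0 < (((ε / 2 : ℝ) : ℂ) * I).im
        simp
        exact hε
      · rw [dist_comm, dist_zero_right, norm_mul, norm_I, mul_one, norm_real, Real.norm_eq_abs,
          abs_of_pos (half_pos hε)]
        exact half_lt_self hε
    have h0C : (0:ℂ) ∈ HC := by change (0:ℝ) ≤ (0:ℂ).im; simp
    have hsub : 𝓝[HO] (0:ℂ) ≤ 𝓝[HC] 0 := nhdsWithin_mono _ HO_subset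
    have h1 : Tendsto (fun z => cay 1 β (m z)) (𝓝[HO] 0) (𝓝 (cay 1 β 0)) := by
      have h2 : Tendsto m (𝓝[HO] 0) (𝓝[HC] 0) := by
        refine tendsto_nhdsWithin_iff.2 ⟨h0, ?_⟩
        filter_upwards [self_mem_nhdsWithin] with z hz
        exact HO_subset (hmaps hz)
      exact ((cay_cont hβ) 0 h0C).tendsto.comp h2
    have h2 : Tendsto (fun z => cay 1 I z * c) (𝓝[HO] 0) (𝓝 (cay 1 I 0 * c)) :=
      (((cay_cont hI) 0 h0C).tendsto.mono_left hsub).mul_const c
    have h3 : Tendsto (fun z => cay 1 β (m z)) (𝓝[HO] 0) (𝓝 (cay 1 I 0 * c)) := by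
      refine h2.congr' ?_
      filter_upwards [self_mem_nhdsWithin] with z hz
      exact (key z hz).symm
    have h4 := tendsto_nhds_unique h3 h1
    rw [hc1, cay, cay, one_mul, one_mul, mul_one, zero_sub, zero_sub, zero_sub, zero_sub, conj_I,
      neg_neg, neg_div, div_self I_ne_zero, neg_div_neg_eq] at h4
    have hcb : conj β ≠ 0 := by
      intro h
      have := congrArg Complex.im h
      rw [conj_im, zero_im] at this
      linarith
    rw [eq_div_iff hcb] at h4
    have h5 := congrArg Complex.re h4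
    simp only [neg_mul, one_mul, neg_re, conj_re] at h5
    linarith
  refine ⟨β.im, hβ, fun z hz => ?_⟩
  have h1 := key z hz
  have hβe : β = (β.im : ℂ) * I := by
    apply Complex.ext <;> simp [hβre]
  have hcb : conj β = -((β.im : ℂ) * I) := by
    apply Complex.ext <;> simp [hβre]
  have hd1 := cay_den hβ (HO_subset (hmaps hz))
  have hd2 := cay_den hI (HO_subset hz)
  rw [hc1, mul_one, cay, cay, one_mul, one_mul, div_eq_div_iff hd1 hd2, hcb, conj_I] at h1
  have h2 : (m z - (β.im : ℂ) * I) * (z - -I) = (z - I) * (m z - -((β.im : ℂ) * I)) := by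
    rw [← h1, ← hβe]
  have h3 : 2 * I * (m z - β.im * z) = 0 := by linear_combination h2
  rcases mul_eq_zero.1 h3 with h4 | h4
  · exfalso
    rcases mul_eq_zero.1 h4 with h5 | h5
    · norm_num at h5
    · exact I_ne_zero h5
  · exact sub_eq_zero.1 h4

/-- **Charts are unique up to scaling.** -/
theorem chart_unique {D : Set ℂ} {a b : ℂ} {φ φ' : ℂ → ℂ} (h : IsChart D a b φ)
    (h' : IsChart D a b φ') : ∃ k : ℝ, 0 < k ∧ ∀ z ∈ cHH, φ' z = φ (k * z) := by
  have hHO : IsOpen (HH : Set ℂ) := isOpen_lt continuous_const Complex.continuous_im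
  have hmd : ∀ {f f' : ℂ → ℂ}, IsChart D a b f → IsChart D a b f' →
      DifferentiableOn ℂ (fun z => psi f (f' z)) HO := by
    intro f f' hf hf'
    have h1 : DifferentiableOn ℂ (psi f) (f '' HH) :=
      Pool.Agent.H83.Lo.differentiableOn_inv hHO hf.diff (hf.inj.mono HH_sub)
        (fun z hz => psi_left hf (HH_sub hz))
    rw [hf.image] at h1
    refine h1.comp hf'.diff ?_
    intro z hz
    rw [← hf'.image]
    exact ⟨z, hz, rfl⟩
  have hmm : ∀ {f f' : ℂ → ℂ}, IsChart D a b f → IsChart D a b f' →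
      MapsTo (fun z => psi f (f' z)) HO HO := by
    intro f f' hf hf' z hz
    refine psi_UH hf ?_
    rw [← hf'.image]
    exact ⟨z, hz, rfl⟩
  have hD : ∀ z ∈ HO, φ' z ∈ D := by
    intro z hz
    rw [← h'.image]
    exact ⟨z, hz, rfl⟩
  have hDc : D ⊆ φ '' cHH := chart_sub h
  have h0C : (0:ℂ) ∈ cHH := by change (0:ℝ) ≤ (0:ℂ).im; simp
  have hsub : 𝓝[HO] (0:ℂ) ≤ 𝓝[cHH] 0 := nhdsWithin_mono _ HH_sub
  have q1 : ∀ z ∈ HO, psi φ' (φ (psi φ (φ' z))) = z := by
    intro z hz
    rw [psi_right (hDc (hD z hz)), psi_left h' (HH_sub hz)]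
  have q2 : Tendsto (fun z => psi φ (φ' z)) (𝓝[HO] 0) (𝓝 0) := by
    have ha : a ∈ φ '' cHH := ⟨0, h0C, h.zero⟩
    have h1 := ((psi_cont h) a ha).tendsto
    have h2 : psi φ a = 0 := by rw [← h.zero, psi_left h h0C]
    rw [h2] at h1
    refine h1.comp (tendsto_nhdsWithin_iff.2 ⟨?_, ?_⟩)
    · have h3 := ((h'.cont 0 h0C).tendsto).mono_left hsub
      rwa [h'.zero] at h3
    · filter_upwards [self_mem_nhdsWithin] with z hz
      exact hDc (hD z hz)
  have q3 : Tendsto (fun z => psi φ (φ' z)) (Bornology.cobounded ℂ ⊓ 𝓟 HO)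
      (Bornology.cobounded ℂ) := by
    rw [(Metric.hasBasis_cobounded_compl_closedBall (0 : ℂ)).tendsto_right_iff]
    intro R _
    have hK : IsCompact (cHH ∩ closedBall (0 : ℂ) R) :=
      (isCompact_closedBall _ _).inter_left (isClosed_le continuous_const Complex.continuous_im)
    have hK2 : IsClosed (φ '' (cHH ∩ closedBall (0 : ℂ) R)) :=
      (hK.image_of_continuousOn (h.cont.mono inter_subset_left)).isClosed
    have hb : (φ '' (cHH ∩ closedBall (0 : ℂ) R))ᶜ ∈ 𝓝 b := by
      refine hK2.isOpen_compl.mem_nhds ?_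
      rintro ⟨z, hz, hzb⟩
      exact h.ne ⟨z, hz.1, hzb⟩
    have hle : (Bornology.cobounded ℂ ⊓ 𝓟 HO) ≤ Bornology.cobounded ℂ ⊓ 𝓟 cHH :=
      inf_le_inf_left _ (principal_mono.2 HH_sub)
    filter_upwards [(h'.infty.mono_left hle) hb, mem_inf_of_right (mem_principal_self HO)]
      with z hz hzO hmem
    apply hz
    refine ⟨psi φ (φ' z), ⟨psi_mem (hDc (hD z hzO)), hmem⟩, psi_right (hDc (hD z hzO))⟩
  obtain ⟨k, hk, hkm⟩ := scaling (m := fun z => psi φ (φ' z)) (n := fun z => psi φ' (φ z))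
    (hmd h h') (hmm h h') (hmd h' h) (hmm h' h) q1 q2 q3
  refine ⟨k, hk, ?_⟩
  have e1 : ∀ z ∈ HO, φ' z = φ (k * z) := by
    intro z hz
    have h1 : psi φ (φ' z) = k * z := hkm z hz
    rw [← h1, psi_right (hDc (hD z hz))]
  have hcl : cHH ⊆ closure HO := by
    intro z hz
    rw [Metric.mem_closure_iff]
    intro ε hε
    refine ⟨z + ((ε / 2 : ℝ) : ℂ) * I, ?_, ?_⟩
    · change 0 < (z + ((ε / 2 : ℝ) : ℂ) * I).im
      have hz' : 0 ≤ z.im := hz
      simp
      linarith
    · rw [dist_comm, dist_eq_norm, add_sub_cancel_left, norm_mul, norm_I, mul_one, norm_real,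
        Real.norm_eq_abs, abs_of_pos (half_pos hε)]
      exact half_lt_self hε
  have hk2 : MapsTo (fun z : ℂ => (k : ℂ) * z) cHH cHH := by
    intro z hz
    have hz' : 0 ≤ z.im := hz
    change 0 ≤ ((k : ℂ) * z).im
    simp only [mul_im, ofReal_re, ofReal_im, zero_mul, add_zero]
    positivity
  intro z hz
  have hne : (𝓝[HO] z).NeBot := mem_closure_iff_nhdsWithin_neBot.1 (hcl hz)
  have hs : 𝓝[HO] z ≤ 𝓝[cHH] z := nhdsWithin_mono _ HH_sub
  have t1 : Tendsto φ' (𝓝[HO] z) (𝓝 (φ' z)) := ((h'.cont z hz).tendsto).mono_left hs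
  have t2 : Tendsto (fun z : ℂ => φ (k * z)) (𝓝[HO] z) (𝓝 (φ (k * z))) := by
    have h1 : ContinuousOn (fun z : ℂ => φ (k * z)) cHH :=
      h.cont.comp (by fun_prop) hk2
    exact ((h1 z hz).tendsto).mono_left hs
  refine tendsto_nhds_unique t1 (t2.congr' ?_)
  filter_upwards [self_mem_nhdsWithin] with u hu
  exact (e1 u hu).symm

/-- A normalised conformal map is a chart. -/
theorem IsHalf.isChart {D : Set ℂ} {a b : ℂ} {φ : ℂ → ℂ} (h : IsHalf D a b φ) :
    IsChart D a b φ where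
  diff := h.diff
  image := h.image
  cont := h.cont
  inj := h.inj
  zero := h.zero
  infty := h.lim
  ne := by
    intro hb
    have h1 : b ∈ φ '' HC := hb
    rw [h.closure] at h1
    exact h1.2 rfl

/-- Charts of Jordan domains exist. -/
theorem exists_chart {D : Set ℂ} (hD : Pool.Agent.H81.Q1.IsJordanDomain D) {a b : ℂ}
    (ha : a ∈ frontier D) (hb : b ∈ frontier D) (hab : a ≠ b) : ∃ φ : ℂ → ℂ, IsChart D a b φ := by
  obtain ⟨φ, h⟩ := exists_half hD ha hb hab
  exact ⟨φ, h.isChart⟩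

end Pool.Agent.H69.Car
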