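import Pool.Agent.H14.Jordan.Bridge
import Pool.Agent.H83.Lo.SC
import Pool.Agent.H96.M7.LengthArea

set_option autoImplicit false
open Set Metric Filter Topology MeasureTheory Complex
open scoped Real ENNReal

/-! The Riemann map of the disc onto a Jordan domain is uniformly continuous (Caratheodory). -/

namespace Pool.Agent.H69.Car

open Pool.Agent.H81.Q1 (IsJordanDomain IsArcs)
open Pool.Agent.H83.Lo (NoIsland HasSqrt)
open Pool.Agent.H96.M7 (len exists_short edist_arc)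

/-- The complement of a Jordan domain has no compact clopen part. -/
lemma noIsland {D : Set ℂ} (h : IsJordanDomain D) : NoIsland Dᶜ := by
  intro E hE hEc hcl
  have hc := (Pool.Agent.H14.Jordan.compl_connected h).isPreconnected
  by_contra hne
  have hne' : E.Nonempty := nonempty_iff_ne_empty.2 hne
  rw [isPreconnected_closed_iff] at hc
  have h2 : (Dᶜ ∩ (Dᶜ \ E)).Nonempty := by
    by_contra h3
    rw [not_nonempty_iff_eq_empty] at h3
    have h4 : Dᶜ ⊆ E := by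
      intro x hx
      by_contra hxE
      have : x ∈ Dᶜ ∩ (Dᶜ \ E) := ⟨hx, hx, hxE⟩
      rw [h3] at this
      exact this
    have h5 : Bornology.IsBounded (univ : Set ℂ) := by
      have h6 := (hEc.isBounded.subset h4).union h.2.2.1
      rwa [compl_union_self] at h6
    exact NormedSpace.unbounded_univ ℝ ℂ h5
  obtain ⟨x, hx⟩ := hc E (Dᶜ \ E) hEc.isClosed hcl
    (fun x hx => by by_cases hxE : x ∈ E
                    · exact Or.inl hxE
                    · exact Or.inr ⟨hx, hxE⟩)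
    (by rw [inter_eq_self_of_subset_right hE]; exact hne') h2
  exact hx.2.2.2 hx.2.1

/-- The Riemann map of the disc onto a Jordan domain. -/
theorem exists_riemann {D : Set ℂ} (h : IsJordanDomain D) : ∃ φ f : ℂ → ℂ,
    DifferentiableOn ℂ φ (ball 0 1) ∧ BijOn φ (ball 0 1) D ∧ ContinuousOn f D ∧
      ∀ z ∈ ball (0 : ℂ) 1, f (φ z) = z := by
  obtain ⟨z₀, hz₀⟩ := h.2.1.nonempty
  have hne : D ≠ univ := by
    intro h1
    exact NormedSpace.unbounded_univ ℝ ℂ (h1 ▸ h.2.2.1)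
  obtain ⟨f, hf, hb, -, -⟩ := Pool.Agent.H83.Lo.riemann_mapping h.1 h.2.1.isPreconnected
    (Pool.Agent.H83.Lo.hasSqrt_of_noIsland h.1 h.2.1.isPreconnected (noIsland h)) hne hz₀
  have hinv : ∀ z ∈ D, Function.invFunOn f D (f z) = z :=
    fun z hz => hb.injOn.leftInvOn_invFunOn hz
  refine ⟨Function.invFunOn f D, f, ?_, ?_, hf.continuousOn, ?_⟩
  · rw [← hb.image_eq]
    exact Pool.Agent.H83.Lo.differentiableOn_inv h.1 hf hb.injOn hinv
  · have := hb.invOn_invFunOn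
    exact this.symm.bijOn hb.surjOn.mapsTo_invFunOn hb.mapsTo
  · intro z hz
    obtain ⟨w, hw, rfl⟩ := hb.surjOn hz
    rw [hinv w hw]

lemma cos_le_max {t1 t2 t : ℝ} (h0 : 0 ≤ t1) (h1 : t1 ≤ t) (h2 : t ≤ t2) (h3 : t2 ≤ 2 * π) :
    Real.cos t ≤ max (Real.cos t1) (Real.cos t2) := by
  rcases le_total t π with h | h
  · exact le_max_of_le_left (Real.cos_le_cos_of_nonneg_of_le_pi h0 h h1)
  · apply le_max_of_le_right
    have := Real.cos_le_cos_of_nonneg_of_le_pi (x := 2 * π - t2) (y := 2 * π - t) (by linarith)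
      (by linarith) (by linarith)
    rwa [Real.cos_two_pi_sub, Real.cos_two_pi_sub] at this

lemma normSq_circle (z0 : ℂ) (ρ t : ℝ) :
    ‖circleMap z0 ρ (arg z0 + t)‖ ^ 2 = ‖z0‖ ^ 2 + ρ ^ 2 + 2 * ‖z0‖ * ρ * Real.cos t := by
  have h1 : circleMap z0 ρ (arg z0 + t) = (‖z0‖ + ρ * exp (t * I)) * exp (arg z0 * I) := by
    have h2 := norm_mul_exp_arg_mul_I z0
    have h3 : exp (((arg z0 + t : ℝ) : ℂ) * I) = exp (arg z0 * I) * exp (t * I) := by
      rw [← exp_add]
      push_cast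
      ring_nf
    rw [circleMap, h3]
    linear_combination -h2
  have h4 : ((‖z0‖ : ℂ) + ρ * exp (t * I)) =
      ⟨‖z0‖ + ρ * Real.cos t, ρ * Real.sin t⟩ := by
    apply Complex.ext
    · simp [exp_ofReal_mul_I_re]
    · simp [exp_ofReal_mul_I_im]
  rw [h1, norm_mul, norm_exp_ofReal_mul_I, mul_one, ← Complex.normSq_eq_norm_sq, h4,
    Complex.normSq_mk]
  have := Real.sin_sq_add_cos_sq t
  linear_combination ρ ^ 2 * this

/-- Two points of the disc on a circle are joined by an arc of the circle in the disc. -/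
lemma exists_arc {z0 : ℂ} {ρ : ℝ} (hρ : 0 < ρ) {w w' : ℂ} (hw : ‖w‖ < 1) (hw' : ‖w'‖ < 1)
    (h1 : dist w z0 = ρ) (h2 : dist w' z0 = ρ) :
    ∃ a b : ℝ, a ≤ b ∧ b ≤ a + 2 * π ∧ (∀ θ ∈ Icc a b, circleMap z0 ρ θ ∈ ball (0:ℂ) 1) ∧
      ((circleMap z0 ρ a = w ∧ circleMap z0 ρ b = w') ∨
       (circleMap z0 ρ a = w' ∧ circleMap z0 ρ b = w)) := by
  have key : ∀ u : ℂ, dist u z0 = ρ → ∃ t ∈ Ioc 0 (2 * π), circleMap z0 ρ (arg z0 + t) = u := by
    intro u hu
    have h3 : (u - z0) * exp (-(arg z0 * I)) ∈ sphere (0 : ℂ) |ρ| := by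
      rw [mem_sphere_zero_iff_norm, norm_mul, abs_of_pos hρ, ← hu, dist_eq_norm]
      have : ‖exp (-(arg z0 * I))‖ = 1 := by
        rw [← neg_mul, ← ofReal_neg, norm_exp_ofReal_mul_I]
      rw [this, mul_one]
    rw [← image_circleMap_Ioc] at h3
    obtain ⟨t, ht, he⟩ := h3
    refine ⟨t, ht, ?_⟩
    have h4 : exp (((arg z0 + t : ℝ) : ℂ) * I) = exp (arg z0 * I) * exp (t * I) := by
      rw [← exp_add]
      push_cast
      ring_nf
    have h5 : exp (arg z0 * I) * exp (-(arg z0 * I)) = 1 := by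
      rw [← exp_add, add_neg_cancel, exp_zero]
    rw [circleMap, zero_add] at he
    rw [circleMap, h4]
    linear_combination exp (arg z0 * I) * he + (u - z0) * h5
  have main : ∀ t1 ∈ Ioc 0 (2 * π), ∀ t2 ∈ Ioc 0 (2 * π), t1 ≤ t2 →
      ‖circleMap z0 ρ (arg z0 + t1)‖ < 1 → ‖circleMap z0 ρ (arg z0 + t2)‖ < 1 →
      ∀ θ ∈ Icc (arg z0 + t1) (arg z0 + t2), circleMap z0 ρ θ ∈ ball (0:ℂ) 1 := by
    intro t1 ht1 t2 ht2 h12 n1 n2 θ hθ
    obtain ⟨t, rfl⟩ : ∃ t, θ = arg z0 + t := ⟨θ - arg z0, by ring⟩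
    have h3 : t1 ≤ t := by linarith [hθ.1]
    have h4 : t ≤ t2 := by linarith [hθ.2]
    have h5 := cos_le_max ht1.1.le h3 h4 ht2.2
    have m1 : ‖circleMap z0 ρ (arg z0 + t1)‖ ^ 2 < 1 := by
      rw [sq_lt_one_iff_abs_lt_one, abs_of_nonneg (norm_nonneg _)]; exact n1
    have m2 : ‖circleMap z0 ρ (arg z0 + t2)‖ ^ 2 < 1 := by
      rw [sq_lt_one_iff_abs_lt_one, abs_of_nonneg (norm_nonneg _)]; exact n2
    rw [normSq_circle] at m1 m2
    have h6 : ‖circleMap z0 ρ (arg z0 + t)‖ ^ 2 < 1 := by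
      rw [normSq_circle]
      have hz : 0 ≤ 2 * ‖z0‖ * ρ := by positivity
      rcases le_max_iff.1 h5 with h | h
      · have := mul_le_mul_of_nonneg_left h hz
        linarith
      · have := mul_le_mul_of_nonneg_left h hz
        linarith
    rw [sq_lt_one_iff_abs_lt_one, abs_of_nonneg (norm_nonneg _)] at h6
    rwa [mem_ball_zero_iff]
  obtain ⟨t1, ht1, e1⟩ := key w h1
  obtain ⟨t2, ht2, e2⟩ := key w' h2
  rcases le_total t1 t2 with h | h
  · refine ⟨arg z0 + t1, arg z0 + t2, by linarith, by linarith [ht1.1, ht2.2], ?_, Or.inl ⟨e1, e2⟩⟩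
    exact main t1 ht1 t2 ht2 h (by rw [e1]; exact hw) (by rw [e2]; exact hw')
  · refine ⟨arg z0 + t2, arg z0 + t1, by linarith, by linarith [ht1.2, ht2.1], ?_, Or.inr ⟨e2, e1⟩⟩
    exact main t2 ht2 t1 ht1 h (by rw [e2]; exact hw') (by rw [e1]; exact hw)

/-- **Uniform continuity of the Riemann map.** -/
theorem unif {D : Set ℂ} (hD : IsJordanDomain D) {φ f : ℂ → ℂ}
    (hφ : DifferentiableOn ℂ φ (ball 0 1)) (hb : BijOn φ (ball 0 1) D) (hf : ContinuousOn f D)
    (hfφ : ∀ z ∈ ball (0:ℂ) 1, f (φ z) = z) {ε : ℝ} (hε : 0 < ε) :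
    ∃ r > 0, ∀ z ∈ ball (0:ℂ) 1, ∀ w ∈ ball (0:ℂ) 1, dist z w < r → dist (φ z) (φ w) < ε := by
  have mem4 : (1/2 : ℂ) ∈ ball (0:ℂ) 1 ∧ (3/4 : ℂ) ∈ ball (0:ℂ) 1 ∧ (-1/2 : ℂ) ∈ ball (0:ℂ) 1 ∧
      (-3/4 : ℂ) ∈ ball (0:ℂ) 1 := by
    simp only [mem_ball_zero_iff]
    norm_num
  obtain ⟨m1, m2, m3, m4⟩ := mem4
  set d0 := min (dist (φ (1/2)) (φ (3/4))) (dist (φ (-1/2)) (φ (-3/4))) with hd0
  have hd0pos : 0 < d0 := by
    rw [hd0, lt_min_iff]
    constructor
    · rw [dist_pos]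
      intro h
      have := hb.injOn m1 m2 h
      norm_num at this
    · rw [dist_pos]
      intro h
      have := hb.injOn m3 m4 h
      norm_num at this
  set ε1 := min (ε / 3) (d0 / 3) with hε1
  have hε1pos : 0 < ε1 := by positivity
  have e1 : ε1 ≤ ε / 3 := min_le_left _ _
  have e2 : ε1 ≤ d0 / 3 := min_le_right _ _
  obtain ⟨δ, hδ, hfar⟩ := Pool.Agent.H14.Jordan.far_joined hD hε1pos
  -- the area
  have hvol : volume D < ⊤ := hD.2.2.1.measure_lt_top
  set A := max 1 (volume D).toReal with hA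
  have hA0 : 0 < A := lt_of_lt_of_le one_pos (le_max_left _ _)
  have hAv : volume (φ '' ball 0 1) ≤ ENNReal.ofReal A := by
    rw [hb.image_eq]
    exact (ENNReal.le_ofReal_iff_toReal_le hvol.ne hA0.le).2 (le_max_right _ _)
  set r := (1/4 : ℝ) * Real.exp (-(4 * π * A / δ ^ 2 + 1)) with hr
  have hr0 : 0 < r := by positivity
  have hlog : Real.log ((1/4) / r) = 4 * π * A / δ ^ 2 + 1 := by
    rw [hr]
    have : (1/4 : ℝ) / (1/4 * Real.exp (-(4 * π * A / δ ^ 2 + 1))) =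
        Real.exp (4 * π * A / δ ^ 2 + 1) := by
      rw [Real.exp_neg]
      field_simp
    rw [this, Real.log_exp]
  have hr1 : r < 1/4 := by
    rw [hr]
    have : Real.exp (-(4 * π * A / δ ^ 2 + 1)) < 1 := by
      rw [Real.exp_lt_one_iff]
      have : 0 < 4 * π * A / δ ^ 2 := by positivity
      linarith
    linarith
  have hquot : 4 * π * A / Real.log ((1/4) / r) ≤ δ ^ 2 := by
    rw [hlog, div_le_iff₀ (by positivity)]
    have : δ ^ 2 * (4 * π * A / δ ^ 2 + 1) = 4 * π * A + δ ^ 2 := by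
      field_simp
    rw [this]
    nlinarith [sq_nonneg δ]
  refine ⟨r, hr0, ?_⟩
  intro z0 hz0 w0 hw0 hzw
  obtain ⟨ρ, hρ, hlen⟩ := exists_short isOpen_ball hφ hb.injOn hA0 hAv z0 hr0 hr1
  have hρ0 : 0 < ρ := hr0.trans hρ.1
  have hlen' : len φ (ball 0 1) z0 ρ ≤ ENNReal.ofReal δ := by
    have h1 : len φ (ball 0 1) z0 ρ ^ 2 ≤ ENNReal.ofReal δ ^ 2 := by
      refine hlen.trans ?_
      rw [← ENNReal.ofReal_pow hδ.le]
      exact ENNReal.ofReal_le_ofReal hquot
    exact (ENNReal.pow_le_pow_left_iff two_ne_zero).1 h1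
  set T := φ '' (ball 0 1 ∩ sphere z0 ρ) with hT
  have hTd : ∀ u ∈ T, ∀ v ∈ T, dist u v ≤ δ := by
    rintro _ ⟨u, ⟨hu, hu'⟩, rfl⟩ _ ⟨v, ⟨hv, hv'⟩, rfl⟩
    obtain ⟨a, b, hab, hab2, hin, hor⟩ := exists_arc hρ0 (mem_ball_zero_iff.1 hu)
      (mem_ball_zero_iff.1 hv) hu' hv'
    have h1 := (edist_arc isOpen_ball hφ z0 hρ0.le hab hab2 hin).trans hlen'
    have h2 : dist (φ (circleMap z0 ρ b)) (φ (circleMap z0 ρ a)) ≤ δ := by
      rw [dist_eq_norm]
      rw [← ofReal_norm, ENNReal.ofReal_le_ofReal_iff hδ.le] at h1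
      exact h1
    rcases hor with ⟨ha, hb'⟩ | ⟨ha, hb'⟩
    · rw [ha, hb'] at h2
      rwa [dist_comm]
    · rw [ha, hb'] at h2
      exact h2
  -- a point of the circle
  obtain ⟨s0, hs0, hs0'⟩ : ∃ s0 : ℂ, s0 ∈ ball (0:ℂ) 1 ∧ s0 ∈ sphere z0 ρ := by
    by_cases hz : z0 = 0
    · refine ⟨ρ, ?_, ?_⟩
      · rw [mem_ball_zero_iff, norm_real, Real.norm_of_nonneg hρ0.le]
        linarith [hρ.2]
      · rw [mem_sphere, hz, dist_zero_right, norm_real, Real.norm_of_nonneg hρ0.le]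
    · have hn : 0 < ‖z0‖ := norm_pos_iff.2 hz
      refine ⟨z0 - (ρ / ‖z0‖ : ℝ) * z0, ?_, ?_⟩
      · have : z0 - (ρ / ‖z0‖ : ℝ) * z0 = ((1 - ρ / ‖z0‖ : ℝ) : ℂ) * z0 := by
          push_cast; ring
        rw [mem_ball_zero_iff, this, norm_mul, norm_real, Real.norm_eq_abs]
        have h3 : |1 - ρ / ‖z0‖| * ‖z0‖ = |‖z0‖ - ρ| := by
          rw [← abs_of_pos hn, ← abs_mul, abs_of_pos hn]
          congr 1
          field_simp
        rw [h3, abs_lt]
        have := mem_ball_zero_iff.1 hz0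
        constructor
        · linarith [hρ.2]
        · linarith
      · rw [mem_sphere, dist_eq_norm, sub_sub_cancel_left, norm_neg, norm_mul, norm_real,
          Real.norm_of_nonneg (by positivity)]
        field_simp
  set c := φ s0 with hc
  have hcT : c ∈ T := ⟨s0, ⟨hs0, hs0'⟩, rfl⟩
  set K := closure T with hK
  have hKsub : K ⊆ closedBall c δ :=
    closure_minimal (fun u hu => hTd u hu c hcT) isClosed_closedBall
  have hKc : IsCompact K :=
    (isCompact_closedBall c δ).of_isClosed_subset isClosed_closure hKsub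
  have hfD : ∀ u ∈ D, f u ∈ ball (0:ℂ) 1 ∧ φ (f u) = u := by
    intro u hu
    obtain ⟨v, hv, rfl⟩ := hb.surjOn hu
    rw [hfφ v hv]
    exact ⟨hv, rfl⟩
  have hsep : ∀ z ∈ ball (0:ℂ) 1, dist z z0 < ρ → ∀ w ∈ ball (0:ℂ) 1, ρ < dist w z0 →
      ε1 < dist (φ z) c → ε1 < dist (φ w) c → False := by
    intro z hz hzρ w hw hwρ h1 h2
    obtain ⟨γ, hγ⟩ := hfar c K hKc hKsub (φ z) (hb.mapsTo hz) (φ w) (hb.mapsTo hw) h1 h2
    have hcont : Continuous (fun t => dist (f (γ t)) z0) := by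
      refine Continuous.dist ?_ continuous_const
      exact hf.comp_continuous γ.continuous fun t => (hγ t).1
    have h3 : ρ ∈ range (fun t => dist (f (γ t)) z0) := by
      have h4 := intermediate_value_univ (0 : unitInterval) 1 hcont
      apply h4
      simp only [γ.source, γ.target, hfφ z hz, hfφ w hw]
      exact ⟨hzρ.le, hwρ.le⟩
    obtain ⟨t, ht⟩ := h3
    have h5 := hfD (γ t) (hγ t).1
    apply (hγ t).2
    apply subset_closure
    exact ⟨f (γ t), ⟨h5.1, ht⟩, h5.2⟩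
  have hin : ∀ z ∈ ball (0:ℂ) 1, dist z z0 < ρ → dist (φ z) c ≤ ε1 := by
    intro z hz hzρ
    by_contra hcon
    push Not at hcon
    have hall : ∀ w ∈ ball (0:ℂ) 1, ρ < dist w z0 → dist (φ w) c ≤ ε1 := by
      intro w hw hwρ
      by_contra h
      push Not at h
      exact hsep z hz hzρ w hw hwρ hcon h
    have hfin : ∀ p q : ℂ, p ∈ ball (0:ℂ) 1 → q ∈ ball (0:ℂ) 1 → ρ < dist p z0 → ρ < dist q z0 →
        d0 ≤ dist (φ p) (φ q) → False := by
      intro p q hp hq h1 h2 h3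
      have h4 := hall p hp h1
      have h5 := hall q hq h2
      have h6 := dist_triangle_right (φ p) (φ q) c
      linarith
    have hdist : ∀ p q : ℂ, 1 ≤ dist p q → dist p z0 ≤ ρ → ρ < dist q z0 := by
      intro p q h1 h2
      have := dist_triangle_right p q z0
      linarith [hρ.2]
    by_cases hp : ρ < dist (1/2 : ℂ) z0 ∧ ρ < dist (3/4 : ℂ) z0
    · exact hfin _ _ m1 m2 hp.1 hp.2 (min_le_left _ _)
    · have hor : dist (1/2 : ℂ) z0 ≤ ρ ∨ dist (3/4 : ℂ) z0 ≤ ρ := by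
        by_contra h
        push Not at h
        exact hp h
      have hq : ρ < dist (-1/2 : ℂ) z0 ∧ ρ < dist (-3/4 : ℂ) z0 := by
        rcases hor with h | h
        · constructor
          · exact hdist _ _ (by rw [dist_eq_norm]; norm_num) h
          · exact hdist _ _ (by rw [dist_eq_norm]; norm_num) h
        · constructor
          · exact hdist _ _ (by rw [dist_eq_norm]; norm_num) h
          · exact hdist _ _ (by rw [dist_eq_norm]; norm_num) h
      exact hfin _ _ m3 m4 hq.1 hq.2 (min_le_right _ _)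
  have h1 := hin z0 hz0 (by rw [dist_self]; exact hρ0)
  have h2 := hin w0 hw0 (by rw [dist_comm]; exact hzw.trans hρ.1)
  have h3 := dist_triangle_right (φ z0) (φ w0) c
  linarith

end Pool.Agent.H69.Car
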